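import Mathlib

namespace Pool.Agent.H.MP_f97503_an
open Set Topology Filter

variable {K : Type*} [TopologicalSpace K] [CompactSpace K]

noncomputable def T (u : ℕ → C(K, ℝ)) (pt : C(K, ℝ) → K) (μ : WeakDual ℝ C(K, ℝ)) :
    ℕ → ℕ → C(K, ℝ) → ℝ → (C(K, ℝ) →L[ℝ] ℝ)
  | 0, _, φ, w => w • ContinuousMap.evalCLM ℝ (pt φ)
  | n + 1, k, φ, w =>
      T u pt μ n (k + 1) (φ * u k) (min w (max (μ (φ * u k)) 0)) +
      T u pt μ n (k + 1) (φ * (1 - u k)) (w - min w (max (μ (φ * u k)) 0))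

variable {u : ℕ → C(K, ℝ)} {pt : C(K, ℝ) → K}

theorem T_zero (μ : WeakDual ℝ C(K, ℝ)) (k φ w g) : T u pt μ 0 k φ w g = w * g (pt φ) := by
  simp [T]

theorem T_succ (μ : WeakDual ℝ C(K, ℝ)) (n k φ w g) : T u pt μ (n + 1) k φ w g =
    T u pt μ n (k + 1) (φ * u k) (min w (max (μ (φ * u k)) 0)) g +
      T u pt μ n (k + 1) (φ * (1 - u k)) (w - min w (max (μ (φ * u k)) 0)) g := by
  simp [T]

def Inv (μ : WeakDual ℝ C(K, ℝ)) (φ : C(K, ℝ)) (w : ℝ) : Prop :=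
  (∀ x, 0 ≤ φ x) ∧ 0 ≤ w ∧ w ≤ max (μ φ) 0

theorem Inv.left (hu : ∀ n x, 0 ≤ u n x ∧ u n x ≤ 1) {μ : WeakDual ℝ C(K, ℝ)} {φ w}
    (h : Inv μ φ w) (k : ℕ) : Inv μ (φ * u k) (min w (max (μ (φ * u k)) 0)) :=
  ⟨fun x => mul_nonneg (h.1 x) (hu k x).1, le_min h.2.1 (le_max_right _ _), min_le_right _ _⟩

theorem Inv.right (hu : ∀ n x, 0 ≤ u n x ∧ u n x ≤ 1) {μ : WeakDual ℝ C(K, ℝ)} {φ w}
    (h : Inv μ φ w) (k : ℕ) : Inv μ (φ * (1 - u k)) (w - min w (max (μ (φ * u k)) 0)) := by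
  refine ⟨fun x => mul_nonneg (h.1 x) (sub_nonneg.2 (hu k x).2), sub_nonneg.2 (min_le_left _ _), ?_⟩
  have e : μ φ = μ (φ * u k) + μ (φ * (1 - u k)) := by
    rw [← map_add]; congr 1; ring
  have h3 := h.2.2
  rw [e] at h3
  generalize μ (φ * u k) = A at *
  generalize μ (φ * (1 - u k)) = B at *
  simp only [min_def, max_def] at *
  split_ifs at * <;> linarith

theorem pos_left (hu : ∀ n x, 0 ≤ u n x ∧ u n x ≤ 1) {φ : C(K, ℝ)} (hφ : ∀ x, 0 ≤ φ x) {k x}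
    (h : 0 < (φ * u k) x) : 0 < φ x ∧ 0 < u k x := by
  simp only [ContinuousMap.mul_apply] at h
  rcases pos_and_pos_or_neg_and_neg_of_mul_pos h with h | h
  · exact h
  · exact absurd h.1 (not_lt.2 (hφ x))

theorem pos_right {φ : C(K, ℝ)} (hφ : ∀ x, 0 ≤ φ x) {k x}
    (h : 0 < (φ * (1 - u k)) x) : 0 < φ x ∧ u k x < 1 := by
  simp only [ContinuousMap.mul_apply, ContinuousMap.sub_apply, ContinuousMap.one_apply] at h
  rcases pos_and_pos_or_neg_and_neg_of_mul_pos h with h | h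
  · exact ⟨h.1, by linarith [h.2]⟩
  · exact absurd h.1 (not_lt.2 (hφ x))

theorem base (hpt : ∀ φ : C(K, ℝ), φ ≠ 0 → φ (pt φ) ≠ 0) {μ : WeakDual ℝ C(K, ℝ)} {φ w}
    (h : Inv μ φ w) : w = 0 ∨ (0 < φ (pt φ) ∧ w ≤ μ φ) := by
  rcases h.2.1.eq_or_lt with h0 | h0
  · exact Or.inl h0.symm
  · right
    have h1 : w ≤ μ φ := by
      rcases le_max_iff.1 h.2.2 with h | h
      · exact h
      · linarith
    refine ⟨lt_of_le_of_ne (h.1 _) (hpt φ ?_).symm, h1⟩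
    rintro rfl
    rw [map_zero] at h1; linarith

theorem L2 (hu : ∀ n x, 0 ≤ u n x ∧ u n x ≤ 1) (hpt : ∀ φ : C(K, ℝ), φ ≠ 0 → φ (pt φ) ≠ 0)
    (μ : WeakDual ℝ C(K, ℝ)) (g : C(K, ℝ)) (a b : ℝ) : ∀ n k φ w, Inv μ φ w →
      (∀ x, 0 < φ x → a ≤ g x ∧ g x ≤ b) →
      a * w ≤ T u pt μ n k φ w g ∧ T u pt μ n k φ w g ≤ b * w := by
  intro n
  induction n with
  | zero =>
    intro k φ w hI hg
    rw [T_zero]
    rcases base hpt hI with h | h
    · simp [h]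
    · have := hg _ h.1
      constructor <;> nlinarith [hI.2.1, this.1, this.2]
  | succ n ih =>
    intro k φ w hI hg
    rw [T_succ]
    have h1 := ih (k + 1) _ _ (hI.left hu k) (fun x hx => hg x (pos_left hu hI.1 hx).1)
    have h2 := ih (k + 1) _ _ (hI.right hu k) (fun x hx => hg x (pos_right hI.1 hx).1)
    constructor <;> linarith [h1.1, h1.2, h2.1, h2.2]

def P (u : ℕ → C(K, ℝ)) (g : C(K, ℝ)) (ε : ℝ) (n k : ℕ) (φ : C(K, ℝ)) : Prop :=
  ∀ x y, 0 < φ x → 0 < φ y →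
    (∀ i, k ≤ i → i < k + n → (0 < u i x ∧ 0 < u i y) ∨ (u i x < 1 ∧ u i y < 1)) → |g x - g y| ≤ ε

theorem P.left (hu : ∀ n x, 0 ≤ u n x ∧ u n x ≤ 1) {g ε n k} {φ : C(K, ℝ)} (hφ : ∀ x, 0 ≤ φ x)
    (h : P u g ε (n + 1) k φ) : P u g ε n (k + 1) (φ * u k) := by
  intro x y hx hy hi
  have hx' := pos_left hu hφ hx
  have hy' := pos_left hu hφ hy
  refine h x y hx'.1 hy'.1 fun i h1 h2 => ?_
  rcases h1.eq_or_lt with rfl | h1
  · exact Or.inl ⟨hx'.2, hy'.2⟩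
  · exact hi i h1 (by omega)

theorem P.right {g ε n k} {φ : C(K, ℝ)} (hφ : ∀ x, 0 ≤ φ x)
    (h : P u g ε (n + 1) k φ) : P u g ε n (k + 1) (φ * (1 - u k)) := by
  intro x y hx hy hi
  have hx' := pos_right hφ hx
  have hy' := pos_right hφ hy
  refine h x y hx'.1 hy'.1 fun i h1 h2 => ?_
  rcases h1.eq_or_lt with rfl | h1
  · exact Or.inr ⟨hx'.2, hy'.2⟩
  · exact hi i h1 (by omega)

theorem L3 (hu : ∀ n x, 0 ≤ u n x ∧ u n x ≤ 1) (hpt : ∀ φ : C(K, ℝ), φ ≠ 0 → φ (pt φ) ≠ 0)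
    (μ : WeakDual ℝ C(K, ℝ)) (g : C(K, ℝ)) (ε : ℝ) (j : ℕ) : ∀ n k φ w, Inv μ φ w →
      P u g ε n k φ → |T u pt μ (j + n) k φ w g - T u pt μ n k φ w g| ≤ 2 * ε * w := by
  intro n
  induction n with
  | zero =>
    intro k φ w hI hP
    rcases base hpt hI with h | h
    · have hb : ∀ x, 0 < φ x → -‖g‖ ≤ g x ∧ g x ≤ ‖g‖ := fun x _ =>
        abs_le.1 (g.norm_coe_le_norm x)
      have h1 := L2 hu hpt μ g _ _ (j + 0) k φ w hI hb
      have h2 := L2 hu hpt μ g _ _ 0 k φ w hI hb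
      rw [abs_le]
      simp only [h, mul_zero] at *
      constructor <;> linarith [h1.1, h1.2, h2.1, h2.2]
    · have hb : ∀ x, 0 < φ x → g (pt φ) - ε ≤ g x ∧ g x ≤ g (pt φ) + ε := fun x hx => by
        have := abs_le.1 (hP x (pt φ) hx h.1 (fun i h1 h2 => by omega))
        constructor <;> linarith [this.1, this.2]
      have h1 := L2 hu hpt μ g _ _ (j + 0) k φ w hI hb
      have h2 := L2 hu hpt μ g _ _ 0 k φ w hI hb
      rw [abs_le]
      constructor <;> linarith [h1.1, h1.2, h2.1, h2.2]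
  | succ n ih =>
    intro k φ w hI hP
    rw [← add_assoc, T_succ, T_succ]
    have h1 := abs_le.1 (ih (k + 1) _ _ (hI.left hu k) (hP.left hu hI.1))
    have h2 := abs_le.1 (ih (k + 1) _ _ (hI.right hu k) (hP.right hI.1))
    rw [abs_le]
    constructor <;> linarith [h1.1, h1.2, h2.1, h2.2]

theorem L4 (hu : ∀ n x, 0 ≤ u n x ∧ u n x ≤ 1) (hpt : ∀ φ : C(K, ℝ), φ ≠ 0 → φ (pt φ) ≠ 0)
    (μ : WeakDual ℝ C(K, ℝ)) (g : C(K, ℝ)) (hg : ∀ x, 0 ≤ g x) (ε : ℝ) (hε : 0 ≤ ε) :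
    ∀ n k φ w, Inv μ φ w → P u g ε n k φ →
      ∃ h : C(K, ℝ), (∀ x, 0 ≤ h x ∧ h x ≤ φ x * (g x + ε)) ∧ T u pt μ n k φ w g ≤ μ h := by
  intro n
  induction n with
  | zero =>
    intro k φ w hI hP
    rw [T_zero]
    rcases base hpt hI with h | h
    · refine ⟨0, fun x => ⟨le_rfl, mul_nonneg (hI.1 x) (by linarith [hg x])⟩, by simp [h]⟩
    · refine ⟨g (pt φ) • φ, fun x => ?_, ?_⟩
      · simp only [ContinuousMap.smul_apply, smul_eq_mul]
        refine ⟨mul_nonneg (hg _) (hI.1 x), ?_⟩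
        rcases (hI.1 x).eq_or_lt with h0 | h0
        · rw [← h0]; simp
        · have := abs_le.1 (hP x (pt φ) h0 h.1 (fun i h1 h2 => by omega))
          nlinarith [this.1]
      · rw [map_smul, smul_eq_mul]
        nlinarith [h.2, hg (pt φ)]
  | succ n ih =>
    intro k φ w hI hP
    rw [T_succ]
    obtain ⟨h1, a1, b1⟩ := ih (k + 1) _ _ (hI.left hu k) (hP.left hu hI.1)
    obtain ⟨h2, a2, b2⟩ := ih (k + 1) _ _ (hI.right hu k) (hP.right hI.1)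
    refine ⟨h1 + h2, fun x => ?_, by rw [map_add]; linarith⟩
    have c1 := a1 x
    have c2 := a2 x
    simp only [ContinuousMap.mul_apply, ContinuousMap.sub_apply, ContinuousMap.one_apply,
      ContinuousMap.add_apply] at *
    constructor <;> nlinarith [c1.1, c1.2, c2.1, c2.2]

theorem L5 (g : C(K, ℝ)) : ∀ n k φ (w : WeakDual ℝ C(K, ℝ) → ℝ), Continuous w →
    Continuous fun μ => T u pt μ n k φ (w μ) g := by
  intro n
  induction n with
  | zero =>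
    intro k φ w hw
    simp only [T_zero]
    exact hw.mul continuous_const
  | succ n ih =>
    intro k φ w hw
    simp only [T_succ]
    have hm : Continuous fun μ : WeakDual ℝ C(K, ℝ) => min (w μ) (max (μ (φ * u k)) 0) :=
      hw.min ((WeakDual.eval_continuous _).max continuous_const)
    exact (ih _ _ _ hm).add (ih _ _ _ (hw.sub hm))

theorem build [Nonempty K] (u : ℕ → C(K, ℝ)) (hu : ∀ n x, 0 ≤ u n x ∧ u n x ≤ 1)
    (hN : ∀ (g : C(K, ℝ)) (ε : ℝ), 0 < ε →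
      ∃ N, ∀ x y, (∀ n < N, (0 < u n x ∧ 0 < u n y) ∨ (u n x < 1 ∧ u n y < 1)) →
        |g x - g y| ≤ ε) :
    ∃ ξ : WeakDual ℝ C(K, ℝ) → WeakDual ℝ C(K, ℝ), Continuous ξ ∧ ∀ μ,
      (∀ g a b, (∀ x, a ≤ g x ∧ g x ≤ b) → a * max (μ 1) 0 ≤ ξ μ g ∧ ξ μ g ≤ b * max (μ 1) 0) ∧
      ∀ g : C(K, ℝ), 0 ≤ g → ∀ δ > 0, ∃ h : C(K, ℝ), 0 ≤ h ∧ h ≤ g ∧ ξ μ g ≤ μ h + δ := by
  classical
  have hpt0 : ∀ φ : C(K, ℝ), ∃ x, φ ≠ 0 → φ x ≠ 0 := by
    intro φ
    by_cases h : φ = 0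
    · exact ⟨Classical.arbitrary K, fun h' => absurd h h'⟩
    · obtain ⟨x, hx⟩ := DFunLike.ne_iff.1 h
      exact ⟨x, fun _ => hx⟩
  choose pt hpt using hpt0
  let m : WeakDual ℝ C(K, ℝ) → ℝ := fun μ => max (μ 1) 0
  have hmc : Continuous m := (WeakDual.eval_continuous _).max continuous_const
  have hI : ∀ μ, Inv μ 1 (m μ) := fun μ => ⟨fun x => zero_le_one, le_max_right _ _, le_rfl⟩
  let A : WeakDual ℝ C(K, ℝ) → ℕ → (C(K, ℝ) →L[ℝ] ℝ) := fun μ n => T u pt μ n 0 1 (m μ)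
  have hP : ∀ g ε, 0 < ε → ∃ N, P u g ε N 0 1 := by
    intro g ε hε
    obtain ⟨N, h⟩ := hN g ε hε
    exact ⟨N, fun x y _ _ hi => h x y fun n hn => hi n (Nat.zero_le _) (by omega)⟩
  have hC : ∀ g ε N, P u g ε N 0 1 → ∀ μ n, N ≤ n → |A μ n g - A μ N g| ≤ 2 * ε * m μ := by
    intro g ε N hPN μ n hn
    obtain ⟨j, rfl⟩ := Nat.exists_eq_add_of_le' hn
    exact L3 hu hpt μ g ε j N 0 1 _ (hI μ) hPN
  have hcau : ∀ μ g, ∃ l, Tendsto (fun n => A μ n g) atTop (𝓝 l) := by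
    intro μ g
    apply cauchySeq_tendsto_of_complete
    rw [Metric.cauchySeq_iff']
    intro ε hε
    have hm0 : 0 ≤ m μ := le_max_right _ _
    obtain ⟨N, hPN⟩ := hP g (ε / (2 * (m μ + 1))) (by positivity)
    refine ⟨N, fun n hn => lt_of_le_of_lt (hC g _ N hPN μ n hn) ?_⟩
    rw [show 2 * (ε / (2 * (m μ + 1))) * m μ = ε * (m μ / (m μ + 1)) by field_simp]
    have : m μ / (m μ + 1) < 1 := by rw [div_lt_one (by positivity)]; linarith
    nlinarith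
  choose l hl using hcau
  let ξ : WeakDual ℝ C(K, ℝ) → WeakDual ℝ C(K, ℝ) := fun μ =>
    StrongDual.toWeakDual (continuousLinearMapOfTendsto (A μ) (f := l μ) (l := atTop)
      (tendsto_pi_nhds.2 (hl μ)))
  have hξ : ∀ μ g, ξ μ g = l μ g := fun μ g => rfl
  have hlim : ∀ g ε N, P u g ε N 0 1 → ∀ μ, |l μ g - A μ N g| ≤ 2 * ε * m μ := by
    intro g ε N hPN μ
    exact le_of_tendsto ((hl μ g).sub_const _).abs
      (eventually_atTop.2 ⟨N, fun n hn => hC g ε N hPN μ n hn⟩)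
  refine ⟨ξ, ?_, fun μ => ⟨?_, ?_⟩⟩
  · apply WeakDual.continuous_of_continuous_eval
    intro g
    simp only [hξ]
    apply continuous_of_locally_uniform_approx_of_continuousAt
    intro μ0 U hU
    obtain ⟨ε, hε, hU'⟩ := Metric.mem_uniformity_dist.1 hU
    have hm0 : 0 ≤ m μ0 := le_max_right _ _
    obtain ⟨N, hPN⟩ := hP g (ε / (2 * (m μ0 + 1))) (by positivity)
    refine ⟨{μ | m μ < m μ0 + 1}, (isOpen_lt hmc continuous_const).mem_nhds (by simp),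
      fun μ => A μ N g, (L5 g N 0 1 m hmc).continuousAt, fun μ hμ => hU' ?_⟩
    refine lt_of_le_of_lt (hlim g _ N hPN μ) ?_
    rw [show 2 * (ε / (2 * (m μ0 + 1))) * m μ = ε * (m μ / (m μ0 + 1)) by field_simp]
    have : m μ / (m μ0 + 1) < 1 := by rw [div_lt_one (by positivity)]; exact hμ
    nlinarith
  · intro g a b hg
    rw [hξ]
    have := fun n => L2 hu hpt μ g a b n 0 1 _ (hI μ) (fun x _ => hg x)
    exact ⟨ge_of_tendsto' (hl μ g) fun n => (this n).1, le_of_tendsto' (hl μ g) fun n => (this n).2⟩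
  · intro g hg δ hδ
    have hm0 : 0 ≤ m μ := le_max_right _ _
    set c := ‖WeakDual.toStrongDual μ‖ with hc
    have hc0 : 0 ≤ c := ContinuousLinearMap.opNorm_nonneg (WeakDual.toStrongDual μ)
    set ε := δ / (2 * m μ + c + 1) with hεd
    have hε : 0 < ε := by positivity
    obtain ⟨N, hPN⟩ := hP g ε hε
    obtain ⟨h, h1, h2⟩ := L4 hu hpt μ g (fun x => hg x) ε hε.le N 0 1 _ (hI μ) hPN
    refine ⟨h ⊓ g, fun x => le_min (h1 x).1 (hg x), inf_le_right, ?_⟩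
    have hn : ‖h - h ⊓ g‖ ≤ ε := by
      rw [ContinuousMap.norm_le _ hε.le]
      intro x
      have := h1 x
      simp only [ContinuousMap.one_apply, one_mul] at this
      simp only [ContinuousMap.sub_apply, ContinuousMap.inf_apply, Real.norm_eq_abs, abs_le, min_def]
      split_ifs <;> constructor <;> linarith [this.2]
    have h3 : μ (h - h ⊓ g) ≤ c * ε := by
      have := (WeakDual.toStrongDual μ).le_opNorm (h - h ⊓ g)
      exact (le_abs_self _).trans (this.trans (mul_le_mul_of_nonneg_left hn hc0))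
    rw [map_sub] at h3
    have h4 := (abs_le.1 (hlim g ε N hPN μ)).2
    have h5 : ε * (2 * m μ + c + 1) = δ := by rw [hεd]; field_simp
    rw [hξ]
    have h6 : A μ N g ≤ μ h := h2
    nlinarith

end Pool.Agent.H.MP_f97503_an
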