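import Mathlib

namespace Pool.Agent.H.MP_f97503_an
open Set Topology Filter

theorem closeoff {α : Type*} (T : α → α → Set α) (hT : ∀ u v, (T u v).Countable) (a0 : α) :
    ∃ S : Set α, S.Countable ∧ a0 ∈ S ∧ ∀ u ∈ S, ∀ v ∈ S, T u v ⊆ S := by
  let s : ℕ → Set α := fun n => Nat.rec {a0} (fun _ A => A ∪ ⋃ u ∈ A, ⋃ v ∈ A, T u v) n
  have hs : ∀ n, s (n+1) = s n ∪ ⋃ u ∈ s n, ⋃ v ∈ s n, T u v := fun n => rfl
  have hc : ∀ n, (s n).Countable := by
    intro n
    induction n with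
    | zero => exact Set.countable_singleton _
    | succ n ih => rw [hs]; exact ih.union (ih.biUnion fun u _ => ih.biUnion fun v _ => hT u v)
  have hm : Monotone s := monotone_nat_of_le_succ fun n => by rw [hs]; exact Set.subset_union_left
  refine ⟨⋃ n, s n, Set.countable_iUnion hc, Set.mem_iUnion.2 ⟨0, rfl⟩, ?_⟩
  intro u hu v hv w hw
  obtain ⟨i, hi⟩ := Set.mem_iUnion.1 hu
  obtain ⟨j, hj⟩ := Set.mem_iUnion.1 hv
  refine Set.mem_iUnion.2 ⟨max i j + 1, ?_⟩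
  rw [hs]; right
  simp only [Set.mem_iUnion]
  exact ⟨u, hm (le_max_left _ _) hi, v, hm (le_max_right _ _) hj, hw⟩

variable {K : Type*} [TopologicalSpace K] [CompactSpace K] [T2Space K]

theorem sep (a : K → K → K → ℝ)
    (ha : ContinuousOn (fun p : K × K × K => a p.1 p.2.1 p.2.2) {p | p.1 ≠ p.2.1})
    (h1 : ∀ x y, x ≠ y → a x y x = 1) (h0 : ∀ x y, x ≠ y → a x y y = 0) :
    ∃ G : Set C(K, ℝ), G.Countable ∧ (0 : C(K, ℝ)) ∈ G ∧
      ∀ x y, (∀ g ∈ G, g x = g y) → x = y := by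
  classical
  have hcz : ∀ x y, x ≠ y → Continuous (a x y) := by
    intro x y hxy
    have : Continuous fun z : K => ((x, y, z) : K × K × K) := by fun_prop
    exact ha.comp_continuous this (fun z => hxy)
  let f : K → K → C(K, ℝ) := fun x y => if h : x ≠ y then ⟨a x y, hcz x y h⟩ else 0
  have hf : ∀ x y, x ≠ y → ∀ z, f x y z = a x y z := by
    intro x y h z; simp only [f, dif_pos h]; rfl
  have hQ : ∀ (d : K) (g : C(K, ℝ)) (n : ℕ), ∃ Q : Set C(K, ℝ), Q.Countable ∧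
      ∀ q, 1 / ((n : ℝ) + 1) ≤ |g q - g d| → f q d ∈ closure Q := by
    intro d g n
    let W : Set K := {q | 1 / ((n : ℝ) + 1) ≤ |g q - g d|}
    have hWc : IsCompact W := (isClosed_le continuous_const (by fun_prop)).isCompact
    have hne : ∀ q ∈ W, q ≠ d := by
      intro q hq h
      subst h
      have : (0 : ℝ) < 1 / ((n : ℝ) + 1) := by positivity
      simp only [W, mem_setOf_eq, sub_self, abs_zero] at hq
      linarith
    have hcont : ContinuousOn (fun q => f q d) W := by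
      rw [continuousOn_iff_continuous_restrict]
      apply ContinuousMap.continuous_of_continuous_uncurry
      have e : (Function.uncurry fun (x : W) (y : K) => (W.domRestrict (fun q => f q d) x) y) =
          fun p : W × K => a p.1 d p.2 := by
        funext p
        exact hf _ _ (hne _ p.1.2) _
      rw [e]
      have : Continuous fun p : W × K => (((p.1 : K), d, p.2) : K × K × K) := by fun_prop
      exact ha.comp_continuous this (fun p => hne _ p.1.2)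
    obtain ⟨c, hc, hsub⟩ := (hWc.image_of_continuousOn hcont).isSeparable
    exact ⟨c, hc, fun q hq => hsub ⟨q, hq, rfl⟩⟩
  choose Q hQc hQ using hQ
  have hR : ∀ g : C(K, ℝ), ∃ R : Set K, R.Countable ∧
      ((∃ x y, x ≠ y ∧ g x < 1 ∧ g y < 1) → ∃ x ∈ R, ∃ y ∈ R, x ≠ y ∧ g x < 1 ∧ g y < 1) := by
    intro g
    by_cases h : ∃ x y, x ≠ y ∧ g x < 1 ∧ g y < 1
    · obtain ⟨x, y, h⟩ := h
      exact ⟨{x, y}, (Set.toFinite _).countable, fun _ => ⟨x, by simp, y, by simp, h⟩⟩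
    · exact ⟨∅, countable_empty, fun h' => absurd h' h⟩
  choose R hRc hR using hR
  let sc : C(K, ℝ) → ℕ × ℚ → C(K, ℝ) := fun g p =>
    ((p.1 : ℝ) + 1) • |g - ContinuousMap.const K (p.2 : ℝ)|
  let T : K ⊕ C(K, ℝ) → K ⊕ C(K, ℝ) → Set (K ⊕ C(K, ℝ)) := fun u v =>
    match u, v with
    | Sum.inl d, Sum.inl d' => {Sum.inr (f d d')}
    | Sum.inl d, Sum.inr g => Sum.inr '' (⋃ n, Q d g n)
    | Sum.inr g, Sum.inr g' => {Sum.inr (g ⊔ g')} ∪ Sum.inr '' (range (sc g)) ∪ Sum.inl '' R g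
    | Sum.inr _, Sum.inl _ => ∅
  have hT : ∀ u v, (T u v).Countable := by
    rintro (d | g) (d' | g')
    · exact countable_singleton _
    · exact (countable_iUnion fun n => hQc _ _ _).image _
    · exact countable_empty
    · exact ((countable_singleton _).union ((countable_range _).image _)).union ((hRc _).image _)
  obtain ⟨S, hSc, hS0, hS⟩ := closeoff T hT (Sum.inr 0)
  let G : Set C(K, ℝ) := Sum.inr ⁻¹' S
  let D : Set K := Sum.inl ⁻¹' S
  refine ⟨G, hSc.preimage Sum.inr_injective, hS0, ?_⟩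
  intro x y hxy
  by_contra hne
  let C : Set K := {z | ∀ g ∈ G, g z = g x}
  have hA : ∀ h ∈ G, h x < 1 → ∃ d, d ∈ D ∧ d ∉ C ∧ h d < 1 := by
    intro h hG hx
    obtain ⟨d, hd, d', hd', hdd, h1d, h1d'⟩ := hR h ⟨x, y, hne, hx, hxy h hG ▸ hx⟩
    have hdD : d ∈ D := hS _ hG _ hG (Or.inr ⟨d, hd, rfl⟩)
    have hdD' : d' ∈ D := hS _ hG _ hG (Or.inr ⟨d', hd', rfl⟩)
    by_cases hdC : d ∈ C
    · refine ⟨d', hdD', fun hd'C => ?_, h1d'⟩
      have hfG : f d d' ∈ G := hS _ hdD _ hdD' rfl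
      have e1 := hdC _ hfG
      have e2 := hd'C _ hfG
      rw [hf _ _ hdd, h1 _ _ hdd] at e1
      rw [hf _ _ hdd, h0 _ _ hdd] at e2
      linarith
    · exact ⟨d, hdD, hdC, h1d⟩
  let H := {h : C(K, ℝ) // h ∈ G ∧ h x < 1}
  haveI : Nonempty H := ⟨⟨0, hS0, by simp⟩⟩
  let Z : H → Set K := fun h => closure {d | d ∈ D ∧ d ∉ C ∧ h.1 d < 1}
  have hdir : Directed (· ⊇ ·) Z := by
    intro h h'
    refine ⟨⟨h.1 ⊔ h'.1, hS _ h.2.1 _ h'.2.1 (Or.inl (Or.inl rfl)), ?_⟩, ?_, ?_⟩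
    · simp only [ContinuousMap.sup_apply]; exact max_lt h.2.2 h'.2.2
    · apply closure_mono
      rintro d ⟨h1, h2, h3⟩
      exact ⟨h1, h2, lt_of_le_of_lt (le_max_left _ _) h3⟩
    · apply closure_mono
      rintro d ⟨h1, h2, h3⟩
      exact ⟨h1, h2, lt_of_le_of_lt (le_max_right _ _) h3⟩
  obtain ⟨p, hp⟩ := IsCompact.nonempty_iInter_of_directed_nonempty_isCompact_isClosed Z hdir
    (fun h => by
      obtain ⟨d, hd⟩ := hA h.1 h.2.1 h.2.2
      exact ⟨d, subset_closure hd⟩)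
    (fun h => isClosed_closure.isCompact) (fun h => isClosed_closure)
  rw [mem_iInter] at hp
  have hple : ∀ h ∈ G, h x < 1 → h p ≤ 1 := by
    intro h hG hx
    have hcl : IsClosed {z | h z ≤ 1} := isClosed_le (by fun_prop) continuous_const
    exact hcl.closure_subset_iff.2 (fun d hd => le_of_lt hd.2.2) (hp ⟨h, hG, hx⟩)
  have hpC : p ∈ C := by
    intro g hg
    by_contra hgn
    have hpos : 0 < |g p - g x| := abs_pos.2 (sub_ne_zero.2 hgn)
    obtain ⟨n, hn⟩ := exists_nat_one_div_lt (half_pos hpos)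
    have hn0 : (0 : ℝ) < 1 / ((n : ℝ) + 1) := by positivity
    obtain ⟨r, hr1, hr2⟩ := exists_rat_btwn (show g x - 1 / ((n : ℝ) + 1) < g x by linarith)
    have hG : sc g (n, r) ∈ G := hS _ hg _ hg (Or.inl (Or.inr ⟨_, ⟨_, rfl⟩, rfl⟩))
    have hv : ∀ z, sc g (n, r) z = ((n : ℝ) + 1) * |g z - r| := by
      intro z; simp [sc]
    have hn1 : (0 : ℝ) < (n : ℝ) + 1 := by positivity
    have hx : |g x - r| < 1 / ((n : ℝ) + 1) := by rw [abs_lt]; constructor <;> linarith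
    have hx' : sc g (n, r) x < 1 := by
      rw [hv]; rw [lt_div_iff₀ hn1] at hx; linarith
    have hp' := hple _ hG hx'
    rw [hv] at hp'
    have hp'' : |g p - r| ≤ 1 / ((n : ℝ) + 1) := by rw [le_div_iff₀ hn1]; linarith
    have : |g p - g x| ≤ |g p - r| + |g x - r| := by
      have := abs_sub_le (g p) r (g x)
      rwa [abs_sub_comm (r : ℝ) (g x)] at this
    linarith
  obtain ⟨q, hqC, hqp⟩ : ∃ q, q ∈ C ∧ q ≠ p := by
    by_cases h : x = p
    · exact ⟨y, fun g hg => (hxy g hg).symm, fun h' => hne (h.trans h'.symm)⟩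
    · exact ⟨x, fun g _ => rfl, h⟩
  have hca : ContinuousAt (fun t => a q t p) p := by
    have ho : IsOpen {p : K × K × K | p.1 ≠ p.2.1} := isOpen_ne_fun (by fun_prop) (by fun_prop)
    have h2 : ContinuousAt (fun p : K × K × K => a p.1 p.2.1 p.2.2) (q, p, p) :=
      ha.continuousAt (ho.mem_nhds hqp)
    have h3 : ContinuousAt (fun t : K => ((q, t, p) : K × K × K)) p := by fun_prop
    exact ContinuousAt.comp (f := fun t : K => ((q, t, p) : K × K × K)) h2 h3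
  have hev : ∀ᶠ t in 𝓝 p, a q t p < 1 / 2 := by
    apply hca.eventually (gt_mem_nhds _)
    simp only [h0 _ _ hqp]; norm_num
  obtain ⟨d, hd1, hdD, hdC, -⟩ := mem_closure_iff_nhds.1 (hp ⟨0, hS0, by simp⟩) _ hev
  simp only [C, mem_setOf_eq, not_forall] at hdC
  obtain ⟨g, hg, hgd⟩ := hdC
  have hgq : g q ≠ g d := by rw [hqC g hg]; exact fun h => hgd h.symm
  obtain ⟨n, hn⟩ := exists_nat_one_div_lt (abs_pos.2 (sub_ne_zero.2 hgq))
  have hqd : q ≠ d := fun h => hgq (by rw [h])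
  have hcl : IsClosed {φ : C(K, ℝ) | φ q = φ p} := isClosed_eq (by fun_prop) (by fun_prop)
  have hsub : Q d g n ⊆ {φ : C(K, ℝ) | φ q = φ p} := by
    intro φ hφ
    have hφG : φ ∈ G := hS _ hdD _ hg ⟨φ, mem_iUnion.2 ⟨n, hφ⟩, rfl⟩
    exact (hqC φ hφG).trans (hpC φ hφG).symm
  have key : f q d q = f q d p := hcl.closure_subset_iff.2 hsub (hQ d g n q hn.le)
  rw [hf _ _ hqd, hf _ _ hqd, h1 _ _ hqd] at key
  have : a q d p < 1 / 2 := hd1
  linarith

theorem seq (G : Set C(K, ℝ)) (hG : G.Countable) (h0 : (0 : C(K, ℝ)) ∈ G)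
    (hsep : ∀ x y, (∀ g ∈ G, g x = g y) → x = y) :
    ∃ u : ℕ → C(K, ℝ), (∀ n x, 0 ≤ u n x ∧ u n x ≤ 1) ∧ ∀ (g : C(K, ℝ)) (ε : ℝ), 0 < ε →
      ∃ N, ∀ x y, (∀ n < N, (0 < u n x ∧ 0 < u n y) ∨ (u n x < 1 ∧ u n y < 1)) →
        |g x - g y| ≤ ε := by
  classical
  haveI : Countable G := hG.to_subtype
  haveI : Nonempty G := ⟨⟨0, h0⟩⟩
  obtain ⟨e, he⟩ := exists_surjective_nat (G × ℚ × ℕ)
  let v : G × ℚ × ℕ → C(K, ℝ) := fun i =>
    (((i.2.2 : ℝ) • (i.1.1 - ContinuousMap.const K (i.2.1 : ℝ))) ⊔ 0) ⊓ 1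
  have hv : ∀ i z, v i z = min (max ((i.2.2 : ℝ) * (i.1.1 z - i.2.1)) 0) 1 := by
    intro i z; simp [v]
  refine ⟨fun n => v (e n), fun n x => ?_, ?_⟩
  · simp only [hv]
    exact ⟨le_min (le_max_right _ _) zero_le_one, min_le_right _ _⟩
  intro g ε hε
  let O1 : G × ℚ × ℕ → Set (K × K) := fun i =>
    {p | i.1.1 p.1 < i.2.1} ∩ {p | 1 < (i.2.2 : ℝ) * (i.1.1 p.2 - i.2.1)}
  have hO1 : ∀ i, IsOpen (O1 i) := fun i =>
    (isOpen_lt (by fun_prop) continuous_const).inter (isOpen_lt continuous_const (by fun_prop))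
  let O : ℕ → Set (K × K) := fun n => O1 (e n) ∪ Prod.swap ⁻¹' O1 (e n)
  have hO : ∀ n, IsOpen (O n) := fun n => (hO1 _).union ((hO1 _).preimage continuous_swap)
  have hmem : ∀ (k : G) x y, k.1 x < k.1 y → ∃ n, (x, y) ∈ O1 (e n) := by
    intro k x y hlt
    obtain ⟨r, hr1, hr2⟩ := exists_rat_btwn hlt
    obtain ⟨c, hc⟩ := exists_nat_gt (1 / (k.1 y - r))
    obtain ⟨n, hn⟩ := he (k, r, c)
    refine ⟨n, ?_⟩
    rw [hn]
    refine ⟨hr1, ?_⟩
    rw [div_lt_iff₀ (sub_pos.2 hr2)] at hc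
    exact hc
  have hE : IsCompact {p : K × K | ε ≤ |g p.1 - g p.2|} :=
    (isClosed_le continuous_const (by fun_prop)).isCompact
  obtain ⟨t, ht⟩ := hE.elim_finite_subcover O hO (by
    rintro ⟨x, y⟩ hp
    have hxy : x ≠ y := by
      rintro rfl
      simp only [mem_setOf_eq, sub_self, abs_zero] at hp
      linarith
    have : ¬ ∀ g ∈ G, g x = g y := fun h => hxy (hsep x y h)
    push Not at this
    obtain ⟨k, hk, hkn⟩ := this
    rcases lt_or_gt_of_ne hkn with h | h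
    · obtain ⟨n, hn⟩ := hmem ⟨k, hk⟩ x y h
      exact mem_iUnion.2 ⟨n, Or.inl hn⟩
    · obtain ⟨n, hn⟩ := hmem ⟨k, hk⟩ y x h
      exact mem_iUnion.2 ⟨n, Or.inr hn⟩)
  refine ⟨t.sup id + 1, fun x y h => ?_⟩
  by_contra hlt
  have := ht (show (x, y) ∈ {p : K × K | ε ≤ |g p.1 - g p.2|} from (not_le.1 hlt).le)
  simp only [mem_iUnion] at this
  obtain ⟨n, hn, hxy⟩ := this
  have hnN : n < t.sup id + 1 := Nat.lt_succ_of_le (Finset.le_sup (f := id) hn)
  have hval : ∀ x y, (x, y) ∈ O1 (e n) → v (e n) x = 0 ∧ v (e n) y = 1 := by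
    rintro x y ⟨h1, h2⟩
    simp only [mem_setOf_eq] at h1 h2
    rw [hv, hv]
    constructor
    · rw [max_eq_right, min_eq_left zero_le_one]
      exact mul_nonpos_of_nonneg_of_nonpos (Nat.cast_nonneg _) (by linarith)
    · exact min_eq_right (le_max_of_le_left h2.le)
  have h' := h n hnN
  rcases hxy with hxy | hxy
  · obtain ⟨a1, a2⟩ := hval x y hxy
    simp only [a1, a2] at h'
    simp at h'
  · obtain ⟨a1, a2⟩ := hval y x hxy
    simp only [a1, a2] at h'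
    simp at h'

end Pool.Agent.H.MP_f97503_an
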